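import Mathlib
import Pool.Agent.W2helper46.CW.Fin

/-!
# Cycles of Conway's permutation have many local minima

`T (2 n) = 3 n`, `T (4 n + 1) = 3 n + 1`, `T (4 n - 1) = 3 n - 1`. A local minimum of the orbit of `x`
is an element which is smaller than its predecessor and its successor; equivalently (away from the
fixed point `1`) an even element with an odd predecessor, that is, the first element of a maximal
run of even elements.

**Theorem.** Put `F(P) = 22000000 (11 + log P)²` and `λ = log 3 / log 2`. A cycle of length `P` (other
than the fixed point `1`) with `b` local minima has an element of size at most `exp F(P)`, all its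
elements are at most `exp (λ ^ (b + 1) F(P))`, and `P ≤ 20 F(P) (b + 1) λ ^ b`.

In particular, for each `b` the cycles with at most `b` local minima have length and elements below
an explicit bound. Consequently, for every `c < 1 / log λ = 2.171...`, all but finitely many cycles of
length `P` have more than `c log P` local minima. (The four known cycles have `0, 1, 1, 4` local
minima.)

The first part is the explicit lower bound for linear forms in two logarithms of
`Pool.Agent.H440R2` (`lfl`), applied to `P log 3 - (P + o) log 2`, where `o` is the number of odd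
elements. For the rest: if `y` is a local minimum and `2 ^ k` is the exact power of two dividing it,
then the elements up to the next local minimum are at most `(3 / 2) ^ k y ≤ y ^ λ`.

The periods `P` in the theorem need not be the least ones, and the local minima are then counted
among `P` consecutive elements.
-/

set_option autoImplicit false

namespace Pool.Agent.Results.MP_9e8697_nt.FewLocalMinima

/-- Conway's permutation: `2 n ↦ 3 n`, `4 n + 1 ↦ 3 n + 1`, `4 n + 3 ↦ 3 n + 2`. -/
def T (n : ℕ) : ℕ :=
  if n % 2 = 0 then 3 * (n / 2) else if n % 4 = 1 then 3 * (n / 4) + 1 else 3 * (n / 4) + 2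

/-- The number of local minima among `T x, T² x, ..., T^P x`: the number of `i < P` for which
`T^(i+1) x` is smaller than `T^i x` and than `T^(i+2) x`. -/
def localMinima (x P : ℕ) : ℕ :=
  ((Finset.range P).filter fun i => T^[i + 1] x < T^[i] x ∧ T^[i + 1] x < T^[i + 2] x).card

open Pool.Agent.W2helper46.CW in
lemma localMinima_eq (x P : ℕ) : localMinima x P = nmin x P := by
  unfold localMinima nmin
  rw [Nat.count_eq_card_filter_range]
  exact congrArg Finset.card (Finset.filter_congr fun i _ => Iff.rfl)

/-- The values of `T` in the form of the problem. -/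
theorem T_values (n : ℕ) : T (2 * n) = 3 * n ∧ T (4 * n + 1) = 3 * n + 1 ∧
    (1 ≤ n → T (4 * n - 1) = 3 * n - 1) := by
  unfold T
  refine ⟨?_, ?_, fun h => ?_⟩
  · rw [if_pos (by omega)]; omega
  · rw [if_neg (by omega), if_pos (by omega)]; omega
  · rw [if_neg (by omega), if_neg (by omega)]; omega

/-- Every cycle of length `P` other than `{1}` with `b` local minima has an element at most
`exp (22000000 (11 + log P)²)`, its elements `x` are at most
`exp ((log 3 / log 2) ^ (b + 1) 22000000 (11 + log P)²)`, and
`P ≤ 440000000 (11 + log P)² (b + 1) (log 3 / log 2) ^ b`. For every `c < 1 / log (log 3 / log 2)` there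
are only finitely many `x` in finite orbits of length `P` with at most `c log P` local minima. -/
theorem result :
    (∀ x P : ℕ, 1 < x → 1 ≤ P → T^[P] x = x →
      (∃ i < P, (T^[i] x : ℝ) ≤ Real.exp (22000000 * (11 + Real.log P) ^ 2)) ∧
      (x : ℝ) ≤ Real.exp ((Real.log 3 / Real.log 2) ^ (localMinima x P + 1) *
        (22000000 * (11 + Real.log P) ^ 2)) ∧
      (P : ℝ) ≤ 440000000 * (11 + Real.log P) ^ 2 * (localMinima x P + 1) *
        (Real.log 3 / Real.log 2) ^ localMinima x P) ∧
    ∀ c : ℝ, c < 1 / Real.log (Real.log 3 / Real.log 2) →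
      {x : ℕ | 0 < x ∧ ∃ P, 1 ≤ P ∧ T^[P] x = x ∧
        (localMinima x P : ℝ) ≤ c * Real.log P}.Finite := by
  simp only [localMinima_eq]
  refine ⟨fun x P hx hP hper => ?_, fun c hc => Pool.Agent.W2helper46.CW.finite_few hc⟩
  obtain ⟨⟨i, hi, h1⟩, h2, h3⟩ := Pool.Agent.W2helper46.CW.cycle_bounds x P hx hP hper
  have hpos : ∀ i, (0 : ℝ) < (T^[i] x : ℝ) := fun i => by
    exact_mod_cast Pool.Agent.W2helper46.CW.it_pos (show 0 < x by omega) i
  refine ⟨⟨i, hi, ?_⟩, ?_, ?_⟩
  · rw [← Real.exp_log (hpos i)]
    exact Real.exp_le_exp.2 h1
  · have hx0 : (0 : ℝ) < x := hpos 0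
    calc (x : ℝ) = Real.exp (Real.log x) := (Real.exp_log hx0).symm
      _ ≤ _ := Real.exp_le_exp.2 h2
  · refine h3.trans (le_of_eq ?_)
    unfold Pool.Agent.W2helper46.CW.F Pool.Agent.W2helper46.CW.la
    ring

end Pool.Agent.Results.MP_9e8697_nt.FewLocalMinima
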