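import Mathlib
import Pool.Agent.W2helper46.CW.Last

/-!
# Cycles of Conway's permutation with at most four local minima

`T (2 n) = 3 n`, `T (4 n + 1) = 3 n + 1`, `T (4 n - 1) = 3 n - 1`. A local minimum of a cycle is an
element which is smaller than its predecessor and its successor; equivalently (away from the fixed
point `1`) an even element with an odd predecessor, that is, the first element of a maximal run of
even elements. The four known cycles have `0, 1, 1, 4` local minima (`known_counts`).

**Theorem.** Every cycle of `T` with at most four local minima is one of the four known cycles.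

Equivalently, a further finite orbit would have at least five local minima. There is no restriction on
the length of the cycle or on the size of its elements.

Proof. Let `X` be the smallest element, `P` the length, `o` the number of odd elements and `b ≤ 4` the
number of local minima. (1) If `y` is a local minimum and `2 ^ k` is the exact power of `2` dividing
`y`, then the following run of even elements has length `k`, and the elements up to the next local
minimum are at most `y ^ λ`, `λ = log 3 / log 2`. So `(P - o) log 2 ≤ (1 + λ + λ² + λ³) log X`.
(2) `|P log 3 - (P + o) log 2| ≤ o / (3 X - 1)`. (3) The explicit lower bound for linear forms in two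
logarithms of `Pool.Agent.H440R2` (`lfl`) gives `P < e ^ 28`, and three steps of reduction with the
continued fraction of `log 3 / log 2` (convergents with denominators up to `10 ^ 13`) give
`X ≤ 72000`. (4) For the `X ≤ 72000` a kernel computation follows the orbit until an element is
smaller than `X` or there are five local minima.
-/

set_option autoImplicit false

namespace Pool.Agent.Results.MP_9e8697_nt.FourLocalMinima

/-- Conway's permutation: `2 n ↦ 3 n`, `4 n + 1 ↦ 3 n + 1`, `4 n + 3 ↦ 3 n + 2`. -/
def T (n : ℕ) : ℕ :=
  if n % 2 = 0 then 3 * (n / 2) else if n % 4 = 1 then 3 * (n / 4) + 1 else 3 * (n / 4) + 2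

/-- The number of local minima among `T x, T² x, ..., T^P x`: the number of `i < P` for which
`T^(i+1) x` is smaller than `T^i x` and than `T^(i+2) x`. -/
def localMinima (x P : ℕ) : ℕ :=
  ((Finset.range P).filter fun i => T^[i + 1] x < T^[i] x ∧ T^[i + 1] x < T^[i + 2] x).card

open Pool.Agent.W2helper46.CW in
lemma localMinima_eq (x P : ℕ) : localMinima x P = nmin x P := by
  unfold localMinima nmin
  rw [Nat.count_eq_card_filter_range]
  exact congrArg Finset.card (Finset.filter_congr fun i _ => Iff.rfl)

/-- The values of `T` in the form of the problem. -/
theorem T_values (n : ℕ) : T (2 * n) = 3 * n ∧ T (4 * n + 1) = 3 * n + 1 ∧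
    (1 ≤ n → T (4 * n - 1) = 3 * n - 1) := by
  unfold T
  refine ⟨?_, ?_, fun h => ?_⟩
  · rw [if_pos (by omega)]; omega
  · rw [if_neg (by omega), if_pos (by omega)]; omega
  · rw [if_neg (by omega), if_neg (by omega)]; omega

/-- The four known cycles and the numbers of their local minima. -/
theorem known_counts :
    (T^[1] 1 = 1 ∧ localMinima 1 1 = 0) ∧ (T^[2] 2 = 2 ∧ localMinima 2 2 = 1) ∧
    (T^[5] 4 = 4 ∧ localMinima 4 5 = 1) ∧ (T^[12] 44 = 44 ∧ localMinima 44 12 = 4) := by
  decide

/-- **Every cycle of Conway's permutation with at most four local minima is one of the four known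
cycles.** Here `P` may be any period of `x`, for instance the least one. -/
theorem result (x P : ℕ) (hx : 0 < x) (hP : 1 ≤ P) (hper : T^[P] x = x)
    (hb : localMinima x P ≤ 4) :
    x ∈ ({1} ∪ {2, 3} ∪ {4, 6, 9, 7, 5} ∪
      {44, 66, 99, 74, 111, 83, 62, 93, 70, 105, 79, 59} : Finset ℕ) := by
  rw [localMinima_eq] at hb
  have h := Pool.Agent.W2helper46.CW.four hx hP hper hb
  have e : Pool.Agent.W2helper46.CW.known = ({1} ∪ {2, 3} ∪ {4, 6, 9, 7, 5} ∪
      {44, 66, 99, 74, 111, 83, 62, 93, 70, 105, 79, 59} : Finset ℕ) := by
    unfold Pool.Agent.W2helper46.CW.known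
    decide
  rwa [e] at h

end Pool.Agent.Results.MP_9e8697_nt.FourLocalMinima
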